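import Mathlib
import Pool.Agent.N728.SP.Def
import Pool.Agent.H398R2.BA2

/-!
Project SP (helper728), task AP: the prime number theorem in arithmetic progressions with sharp cut-off.
-/

set_option autoImplicit false

namespace Pool.Agent.N232.SP

open Finset Pool.Agent.H410R2 Pool.Agent.H378R2 Pool.Agent.H398R2.BV Pool.Agent.N728.SP

/-- sum of the numbers of primitive characters -/
theorem sum_card_prim_le (q : ℕ) :
    ∑ f ∈ q.divisors.filter (fun f => f ≠ 1), ((Prim f).card : ℝ) ≤ q := by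
  calc ∑ f ∈ q.divisors.filter (fun f => f ≠ 1), ((Prim f).card : ℝ)
      ≤ ∑ f ∈ q.divisors.filter (fun f => f ≠ 1), (Nat.totient f : ℝ) := by
        apply sum_le_sum
        intro f hf
        rw [mem_filter] at hf
        exact card_prim_le (Nat.pos_of_mem_divisors hf.1)
    _ ≤ ∑ f ∈ q.divisors, (Nat.totient f : ℝ) := by
        apply sum_le_sum_of_subset_of_nonneg (filter_subset _ _)
        intro i _ _; positivity
    _ = q := by
        exact_mod_cast Nat.sum_totient q

theorem logAP (h : S_SP) : ∃ l0 : ℝ, ∀ l : ℝ, l0 ≤ l → SCon l → ∀ q b : ℕ, 1 ≤ q →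
    (q : ℝ) ≤ Real.exp (l / 100) → b.Coprime q → ∀ x : ℝ, Real.exp (l ^ 22) ≤ x → x ≤ Real.exp (l ^ 42) →
      |psiLogAP x q b - x / (Nat.totient q : ℝ)| ≤ 3 * Real.exp (-(37 / 50 * l)) * x := by
  obtain ⟨l0, hl0⟩ := h
  refine ⟨max l0 100, fun l hl hS q b hq hqe hb x hx1 hx2 => ?_⟩
  have hl1 : l0 ≤ l := (le_max_left _ _).trans hl
  have hl2 : (100 : ℝ) ≤ l := (le_max_right _ _).trans hl
  have hx0 : 0 < x := (Real.exp_pos _).trans_le hx1
  have hx1' : 1 ≤ x := by
    refine le_trans ?_ hx1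
    apply Real.one_le_exp
    positivity
  have h1 := disc_le x hx1' q b hq hb
  have h2 := hl0 l hl1 x hx1 hx2
  have hφ : (1:ℝ) ≤ Nat.totient q := by exact_mod_cast Nat.totient_pos.mpr (by omega)
  set δ := Real.exp (-(3 * l / 4)) with hδ
  have hδ0 : 0 < δ := Real.exp_pos _
  have h3 : ∑ f ∈ q.divisors.filter (fun f => f ≠ 1), ∑ ψ ∈ Prim f, ‖psiLog x f ψ‖ ≤ q * (x * δ) := by
    calc ∑ f ∈ q.divisors.filter (fun f => f ≠ 1), ∑ ψ ∈ Prim f, ‖psiLog x f ψ‖
        ≤ ∑ f ∈ q.divisors.filter (fun f => f ≠ 1), ((Prim f).card : ℝ) * (x * δ) := by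
          apply sum_le_sum
          intro f hf
          rw [mem_filter] at hf
          have hf1 : 1 ≤ f := Nat.pos_of_mem_divisors hf.1
          have hf2 : 2 ≤ f := by
            have := hf.2
            omega
          have hf3 : (f:ℝ) ≤ Real.exp (l / 2) := by
            have h4 : (f:ℝ) ≤ q := by exact_mod_cast Nat.divisor_le hf.1
            refine (h4.trans hqe).trans ?_
            apply Real.exp_le_exp.mpr
            linarith
          rw [← nsmul_eq_mul, ← sum_const]
          apply sum_le_sum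
          intro ψ hψ
          apply hS f hf2 hf3 ψ _ x hx1 hx2
          unfold Prim at hψ
          classical
          simpa using hψ
      _ = (∑ f ∈ q.divisors.filter (fun f => f ≠ 1), ((Prim f).card : ℝ)) * (x * δ) := by rw [sum_mul]
      _ ≤ _ := by
          apply mul_le_mul_of_nonneg_right (sum_card_prim_le q)
          positivity
  have h4 : (1 / (Nat.totient q : ℝ)) * (∑ f ∈ q.divisors.filter (fun f => f ≠ 1),
        ∑ ψ ∈ Prim f, ‖psiLog x f ψ‖) ≤ Real.exp (l / 100) * (x * δ) := by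
    have h5 : 1 / (Nat.totient q : ℝ) ≤ 1 := by
      rw [div_le_one (by linarith)]; exact hφ
    have h6 : 0 ≤ ∑ f ∈ q.divisors.filter (fun f => f ≠ 1), ∑ ψ ∈ Prim f, ‖psiLog x f ψ‖ := by
      apply sum_nonneg; intro f _
      apply sum_nonneg; intro ψ _
      exact norm_nonneg _
    calc _ ≤ 1 * ∑ f ∈ q.divisors.filter (fun f => f ≠ 1), ∑ ψ ∈ Prim f, ‖psiLog x f ψ‖ :=
          mul_le_mul_of_nonneg_right h5 h6
      _ ≤ q * (x * δ) := by rw [one_mul]; exact h3
      _ ≤ _ := by
          apply mul_le_mul_of_nonneg_right hqe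
          positivity
  have hlogx : Real.log x ≤ l ^ 42 := by
    rw [Real.log_le_iff_le_exp hx0]; exact hx2
  have hlogx0 : 0 ≤ Real.log x := Real.log_nonneg hx1'
  have hlogq : Real.log q ≤ l / 100 := by
    rw [Real.log_le_iff_le_exp (by exact_mod_cast hq)]; exact hqe
  have h7 : 2 * (q.primeFactors.card * Real.log x ^ 2) ≤ l ^ 85 := by
    have h8 := omega_le_log q hq
    calc 2 * (q.primeFactors.card * Real.log x ^ 2) ≤ 2 * ((2 * Real.log q) * Real.log x ^ 2) := by
          gcongr
      _ ≤ 2 * ((2 * (l / 100)) * (l ^ 42) ^ 2) := by gcongr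
      _ = l ^ 85 / 25 := by ring
      _ ≤ l ^ 85 := by
          have : 0 ≤ l ^ 85 := by positivity
          linarith
  have h9 : l ^ 85 ≤ x * δ := by
    have h10 : l ^ 85 ≤ Real.exp (85 * l) := by
      have : l ≤ Real.exp l := by linarith [Real.add_one_le_exp l]
      calc l ^ 85 ≤ (Real.exp l) ^ 85 := by gcongr
        _ = Real.exp (85 * l) := by rw [← Real.exp_nat_mul]; norm_num
    have h11 : Real.exp (85 * l) ≤ Real.exp (l ^ 22) * δ := by
      rw [hδ, ← Real.exp_add]
      apply Real.exp_le_exp.mpr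
      have h12 : 100 * l ≤ l ^ 22 := by
        calc 100 * l ≤ l * l := by gcongr
          _ = l ^ 2 := by ring
          _ ≤ l ^ 22 := pow_le_pow_right₀ (by linarith) (by norm_num)
      linarith
    calc l ^ 85 ≤ Real.exp (l ^ 22) * δ := h10.trans h11
      _ ≤ x * δ := by gcongr
  have hδe : δ ≤ Real.exp (l / 100) * δ := by
    have : 1 ≤ Real.exp (l / 100) := Real.one_le_exp (by linarith)
    nlinarith
  have h13 : |psiLog1 x / (Nat.totient q : ℝ) - x / (Nat.totient q : ℝ)| ≤ x * δ := by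
    rw [← sub_div, abs_div, abs_of_pos (show (0:ℝ) < Nat.totient q by linarith)]
    calc |psiLog1 x - x| / (Nat.totient q : ℝ) ≤ |psiLog1 x - x| := div_le_self (abs_nonneg _) hφ
      _ ≤ _ := h2
  have h14 : Real.exp (l / 100) * δ = Real.exp (-(37 / 50 * l)) := by
    rw [hδ, ← Real.exp_add]; congr 1; ring
  calc |psiLogAP x q b - x / (Nat.totient q : ℝ)|
      = |(psiLogAP x q b - psiLog1 x / (Nat.totient q : ℝ)) +
          (psiLog1 x / (Nat.totient q : ℝ) - x / (Nat.totient q : ℝ))| := by congr 1; ring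
    _ ≤ |psiLogAP x q b - psiLog1 x / (Nat.totient q : ℝ)| +
          |psiLog1 x / (Nat.totient q : ℝ) - x / (Nat.totient q : ℝ)| := abs_add_le _ _
    _ ≤ (Real.exp (l / 100) * (x * δ) + x * δ) + x * δ := by
        have := h1
        linarith
    _ ≤ 3 * (Real.exp (l / 100) * δ) * x := by nlinarith
    _ = _ := by rw [h14]

/-- the function `psi(z; q, b)` -/
noncomputable def psAP (q b z : ℕ) : ℝ :=
  ∑ n ∈ (Icc 1 z).filter (fun n => n ≡ b [MOD q]), ArithmeticFunction.vonMangoldt n

theorem psAP_nonneg (q b z : ℕ) : 0 ≤ psAP q b z :=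
  sum_nonneg fun _ _ => ArithmeticFunction.vonMangoldt_nonneg

/-- upper sandwich -/
theorem sand_up (q b z : ℕ) (hz : 1 ≤ z) (t : ℝ) (ht : 1 ≤ t) :
    psAP q b z * Real.log t ≤ psiLogAP (t * z) q b - psiLogAP z q b := by
  have hz0 : (0:ℝ) < z := by exact_mod_cast hz
  have hfl : ⌊(z:ℝ)⌋₊ = z := Nat.floor_natCast z
  have hsub : (Icc 1 z).filter (fun n => n ≡ b [MOD q]) ⊆ (Icc 1 ⌊t * (z:ℝ)⌋₊).filter (fun n => n ≡ b [MOD q]) := by
    intro n hn
    rw [mem_filter, mem_Icc] at hn ⊢
    refine ⟨⟨hn.1.1, ?_⟩, hn.2⟩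
    apply Nat.le_floor
    have : (n:ℝ) ≤ z := by exact_mod_cast hn.1.2
    nlinarith
  unfold psAP psiLogAP
  rw [hfl, sum_mul]
  have h1 : ∑ n ∈ (Icc 1 z).filter (fun n => n ≡ b [MOD q]), ArithmeticFunction.vonMangoldt n * Real.log (t * z / n) ≤
      ∑ n ∈ (Icc 1 ⌊t * (z:ℝ)⌋₊).filter (fun n => n ≡ b [MOD q]),
        ArithmeticFunction.vonMangoldt n * Real.log (t * z / n) := by
    apply sum_le_sum_of_subset_of_nonneg hsub
    intro n hn _
    rw [mem_filter] at hn
    apply mul_nonneg ArithmeticFunction.vonMangoldt_nonneg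
    refine (log_div_bounds (t * z) n ?_ hn.1).1
    have : (1:ℝ) ≤ z := by exact_mod_cast hz
    nlinarith
  have h2 : ∑ n ∈ (Icc 1 z).filter (fun n => n ≡ b [MOD q]), ArithmeticFunction.vonMangoldt n * Real.log (t * z / n) =
      ∑ n ∈ (Icc 1 z).filter (fun n => n ≡ b [MOD q]), ArithmeticFunction.vonMangoldt n * Real.log t +
      ∑ n ∈ (Icc 1 z).filter (fun n => n ≡ b [MOD q]), ArithmeticFunction.vonMangoldt n * Real.log (z / n) := by
    rw [← sum_add_distrib]
    apply sum_congr rfl
    intro n hn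
    rw [mem_filter, mem_Icc] at hn
    have hn0 : (0:ℝ) < n := by exact_mod_cast hn.1.1
    rw [← mul_add, ← Real.log_mul (by positivity) (by positivity)]
    congr 2
    ring
  linarith

/-- lower sandwich -/
theorem sand_lo (q b z : ℕ) (hz : 1 ≤ z) (t : ℝ) (ht : 1 ≤ t) :
    psiLogAP z q b - psiLogAP (z / t) q b ≤ psAP q b z * Real.log t := by
  have hz0 : (0:ℝ) < z := by exact_mod_cast hz
  have ht0 : 0 < t := by linarith
  have hfl : ⌊(z:ℝ)⌋₊ = z := Nat.floor_natCast z
  have hzt : (z:ℝ) / t ≤ z := div_le_self hz0.le ht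
  have hsub : (Icc 1 ⌊(z:ℝ) / t⌋₊).filter (fun n => n ≡ b [MOD q]) ⊆ (Icc 1 z).filter (fun n => n ≡ b [MOD q]) := by
    intro n hn
    rw [mem_filter, mem_Icc] at hn ⊢
    refine ⟨⟨hn.1.1, ?_⟩, hn.2⟩
    refine hn.1.2.trans ?_
    calc ⌊(z:ℝ) / t⌋₊ ≤ ⌊(z:ℝ)⌋₊ := Nat.floor_le_floor hzt
      _ = z := hfl
  unfold psAP psiLogAP
  rw [hfl, sum_mul, ← sum_sdiff hsub, ← sum_sdiff (f := fun n => ArithmeticFunction.vonMangoldt n * Real.log t) hsub]
  have h1 : ∑ n ∈ ((Icc 1 z).filter (fun n => n ≡ b [MOD q])) \ ((Icc 1 ⌊(z:ℝ) / t⌋₊).filter (fun n => n ≡ b [MOD q])),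
        ArithmeticFunction.vonMangoldt n * Real.log (z / n) ≤
      ∑ n ∈ ((Icc 1 z).filter (fun n => n ≡ b [MOD q])) \ ((Icc 1 ⌊(z:ℝ) / t⌋₊).filter (fun n => n ≡ b [MOD q])),
        ArithmeticFunction.vonMangoldt n * Real.log t := by
    apply sum_le_sum
    intro n hn
    rw [mem_sdiff, mem_filter, mem_filter, mem_Icc, mem_Icc] at hn
    obtain ⟨⟨⟨hn1, hn2⟩, hn3⟩, hn4⟩ := hn
    apply mul_le_mul_of_nonneg_left _ ArithmeticFunction.vonMangoldt_nonneg
    have hn0 : (0:ℝ) < n := by exact_mod_cast hn1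
    apply Real.log_le_log (by positivity)
    have hn5 : ¬ n ≤ ⌊(z:ℝ) / t⌋₊ := fun h => hn4 ⟨⟨hn1, h⟩, hn3⟩
    have hn6 : (z:ℝ) / t < n := by
      by_contra hcon
      push Not at hcon
      exact hn5 (Nat.le_floor hcon)
    rw [div_lt_iff₀ ht0] at hn6
    rw [div_le_iff₀ hn0]
    linarith
  have h2 : ∑ n ∈ (Icc 1 ⌊(z:ℝ) / t⌋₊).filter (fun n => n ≡ b [MOD q]), ArithmeticFunction.vonMangoldt n * Real.log (z / n) =
      ∑ n ∈ (Icc 1 ⌊(z:ℝ) / t⌋₊).filter (fun n => n ≡ b [MOD q]), ArithmeticFunction.vonMangoldt n * Real.log t +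
      ∑ n ∈ (Icc 1 ⌊(z:ℝ) / t⌋₊).filter (fun n => n ≡ b [MOD q]), ArithmeticFunction.vonMangoldt n * Real.log (z / t / n) := by
    rw [← sum_add_distrib]
    apply sum_congr rfl
    intro n hn
    rw [mem_filter, mem_Icc] at hn
    have hn0 : (0:ℝ) < n := by exact_mod_cast hn.1.1
    rw [← mul_add, ← Real.log_mul (by positivity) (by positivity)]
    congr 2
    field_simp
  linarith

/-- the sandwich in general form -/
theorem sandwich (q b z : ℕ) (hz : 1 ≤ z) (φ h ε : ℝ) (hφ : 1 ≤ φ) (hh0 : 0 < h) (hh1 : h ≤ 1) (hε : 0 ≤ ε)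
    (h1 : |psiLogAP ((1 + h) * z) q b - (1 + h) * z / φ| ≤ ε * ((1 + h) * z))
    (h2 : |psiLogAP z q b - z / φ| ≤ ε * z)
    (h3 : |psiLogAP (z / (1 + h)) q b - z / (1 + h) / φ| ≤ ε * (z / (1 + h))) :
    |psAP q b z - z / φ| ≤ z * (h + 6 * ε / h) := by
  have hz0 : (1:ℝ) ≤ z := by exact_mod_cast hz
  have hu := sand_up q b z hz (1 + h) (by linarith)
  have hl := sand_lo q b z hz (1 + h) (by linarith)
  have hψ := psAP_nonneg q b z
  rw [abs_le] at h1 h2 h3
  have hlog1 : Real.log (1 + h) ≤ h := by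
    have := Real.log_le_sub_one_of_pos (show 0 < 1 + h by linarith)
    linarith
  have hlog2 : h / (1 + h) ≤ Real.log (1 + h) := by
    have h4 := Real.one_sub_inv_le_log_of_pos (show 0 < 1 + h by linarith)
    have h5 : h / (1 + h) = 1 - (1 + h)⁻¹ := by
      field_simp
      ring
    rw [h5]; exact h4
  have hzφ0 : 0 ≤ z / φ := by positivity
  have hzφ1 : z / φ ≤ z := div_le_self (by linarith) hφ
  rw [abs_le]
  constructor
  · -- lower bound
    have h5 : psAP q b z * Real.log (1 + h) ≤ psAP q b z * h := mul_le_mul_of_nonneg_left hlog1 hψ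
    have h6 : z / φ - z / (1 + h) / φ - 2 * ε * z ≤ psAP q b z * h := by
      have h7 : ε * (z / (1 + h)) ≤ ε * z := by
        apply mul_le_mul_of_nonneg_left _ hε
        exact div_le_self (by linarith) (by linarith)
      linarith
    have h8 : z / φ - z / (1 + h) / φ = (z / φ) * (h / (1 + h)) := by
      field_simp
      ring
    have h9 : h * (1 - h) ≤ h / (1 + h) := by
      rw [le_div_iff₀ (by linarith)]
      nlinarith [mul_pos hh0 hh0]
    have h10 : (z / φ) * (h * (1 - h)) - 2 * ε * z ≤ psAP q b z * h := by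
      have := mul_le_mul_of_nonneg_left h9 hzφ0
      linarith
    have h11 : -(z * (h + 6 * ε / h)) * h ≤ (psAP q b z - z / φ) * h := by
      have h12 : -(z * (h + 6 * ε / h)) * h = - (z * h * h) - 6 * ε * z := by
        field_simp
        ring
      rw [h12]
      have h13 : (z / φ) * (h * h) ≤ z * (h * h) := mul_le_mul_of_nonneg_right hzφ1 (by positivity)
      have h14 : 0 ≤ ε * z := by positivity
      nlinarith
    exact le_of_mul_le_mul_right h11 hh0
  · -- upper bound
    have h5 : psAP q b z * (h / (1 + h)) ≤ psAP q b z * Real.log (1 + h) := mul_le_mul_of_nonneg_left hlog2 hψ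
    have h6 : psAP q b z * (h / (1 + h)) ≤ h * (z / φ) + 3 * ε * z := by
      have h7 : (1 + h) * z / φ - z / φ = h * (z / φ) := by ring
      have h8 : ε * ((1 + h) * z) ≤ 2 * (ε * z) := by
        have h9 : 0 ≤ ε * z := by positivity
        nlinarith
      linarith
    have h7 : psAP q b z * h ≤ (h * (z / φ) + 3 * ε * z) * (1 + h) := by
      have h8 : psAP q b z * h = psAP q b z * (h / (1 + h)) * (1 + h) := by
        field_simp
      rw [h8]
      exact mul_le_mul_of_nonneg_right h6 (by linarith)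
    have h11 : (psAP q b z - z / φ) * h ≤ z * (h + 6 * ε / h) * h := by
      have h12 : z * (h + 6 * ε / h) * h = z * h * h + 6 * ε * z := by
        field_simp
      rw [h12]
      have h13 : (z / φ) * (h * h) ≤ z * (h * h) := mul_le_mul_of_nonneg_right hzφ1 (by positivity)
      have h14 : 0 ≤ ε * z := by positivity
      nlinarith
    exact le_of_mul_le_mul_right h11 hh0

/-- trivial bound -/
theorem psAP_le (q b z : ℕ) : psAP q b z ≤ z * Real.log z := by
  unfold psAP
  rcases Nat.eq_zero_or_pos z with h | h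
  · subst h; simp
  calc ∑ n ∈ (Icc 1 z).filter (fun n => n ≡ b [MOD q]), ArithmeticFunction.vonMangoldt n
      ≤ ∑ n ∈ Icc 1 z, ArithmeticFunction.vonMangoldt n := by
        apply sum_le_sum_of_subset_of_nonneg (filter_subset _ _)
        intro i _ _; exact ArithmeticFunction.vonMangoldt_nonneg
    _ ≤ ∑ n ∈ Icc 1 z, Real.log z := by
        apply sum_le_sum
        intro n hn
        rw [mem_Icc] at hn
        refine ArithmeticFunction.vonMangoldt_le_log.trans ?_
        apply Real.log_le_log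
        · exact_mod_cast hn.1
        · exact_mod_cast hn.2
    _ = _ := by rw [sum_const, nsmul_eq_mul, Nat.card_Icc]; simp

theorem t_AP (h : S_SP) : S_AP := by
  obtain ⟨l0, hl0⟩ := logAP h
  refine ⟨max l0 100, fun l hl hS q b hq hqe hb z hz => ?_⟩
  have hl1 : l0 ≤ l := (le_max_left _ _).trans hl
  have hl2 : (100 : ℝ) ≤ l := (le_max_right _ _).trans hl
  have hφ : (1:ℝ) ≤ Nat.totient q := by exact_mod_cast Nat.totient_pos.mpr (by omega)
  change |psAP q b z - z / (Nat.totient q : ℝ)| ≤ _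
  have p39 : 100 * l ^ 39 ≤ l ^ 40 := by
    rw [pow_succ]
    have : 0 ≤ l ^ 39 := by positivity
    nlinarith
  have p38 : l ≤ l ^ 39 := by
    calc l = l ^ 1 := (pow_one l).symm
      _ ≤ l ^ 39 := pow_le_pow_right₀ (by linarith) (by norm_num)
  rcases lt_or_ge (z : ℝ) (Real.exp (l ^ 39)) with hz1 | hz1
  · -- small z
    have h1 := psAP_nonneg q b z
    have h2 := psAP_le q b z
    have h3 : (z:ℝ) / (Nat.totient q : ℝ) ≤ z := div_le_self (by positivity) hφ
    have h4 : 0 ≤ (z:ℝ) / (Nat.totient q : ℝ) := by positivity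
    have h5 : (z:ℝ) * Real.log z ≤ Real.exp (l ^ 39) * l ^ 39 := by
      rcases Nat.eq_zero_or_pos z with hz0 | hz0
      · subst hz0; simp; positivity
      have hz0' : (0:ℝ) < z := by exact_mod_cast hz0
      apply mul_le_mul hz1.le
      · rw [Real.log_le_iff_le_exp hz0']; exact hz1.le
      · exact Real.log_nonneg (by exact_mod_cast hz0)
      · positivity
    have h6 : Real.exp (l ^ 39) * l ^ 39 + Real.exp (l ^ 39) ≤ Real.exp (l ^ 40 / 2 - l / 5) := by
      have h7 : l ^ 39 + 1 ≤ Real.exp (l ^ 39) := Real.add_one_le_exp _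
      calc Real.exp (l ^ 39) * l ^ 39 + Real.exp (l ^ 39) = Real.exp (l ^ 39) * (l ^ 39 + 1) := by ring
        _ ≤ Real.exp (l ^ 39) * Real.exp (l ^ 39) := by gcongr
        _ = Real.exp (2 * l ^ 39) := by rw [← Real.exp_add]; congr 1; ring
        _ ≤ _ := by
            apply Real.exp_le_exp.mpr
            linarith
    rw [abs_le]
    constructor
    · have := Real.exp_pos (l ^ 39)
      have : 0 ≤ Real.exp (l ^ 39) * l ^ 39 := by positivity
      linarith
    · have : 0 < Real.exp (l ^ 39) := Real.exp_pos _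
      linarith
  · -- large z
    have hz0 : (0:ℝ) < z := (Real.exp_pos _).trans_le hz1
    have hz0' : 1 ≤ z := by
      have : 0 < z := by exact_mod_cast hz0
      omega
    set hh := Real.exp (-(3 / 8 * l)) with hhd
    have hh0 : 0 < hh := Real.exp_pos _
    have hh1 : hh ≤ 1 := by
      rw [hhd, Real.exp_le_one_iff]
      linarith
    set ε := 3 * Real.exp (-(37 / 50 * l)) with hε
    have hε0 : 0 < ε := by positivity
    have e2 : Real.exp (l ^ 22) ≤ z / 2 := by
      have h7 : Real.exp (l ^ 22) * 2 ≤ Real.exp (l ^ 39) := by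
        have h8 : (2:ℝ) ≤ Real.exp 1 := by
          have := Real.add_one_le_exp (1:ℝ)
          linarith
        calc Real.exp (l ^ 22) * 2 ≤ Real.exp (l ^ 22) * Real.exp 1 := by gcongr
          _ = Real.exp (l ^ 22 + 1) := by rw [Real.exp_add]
          _ ≤ _ := by
              apply Real.exp_le_exp.mpr
              have h9 : l * l ^ 22 ≤ l ^ 39 := by
                calc l * l ^ 22 = l ^ 23 := by ring
                  _ ≤ _ := pow_le_pow_right₀ (by linarith) (by norm_num)
              have h10 : 1 ≤ l ^ 22 := one_le_pow₀ (by linarith)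
              nlinarith
      linarith
    have e3 : 2 * (z:ℝ) ≤ Real.exp (l ^ 42) := by
      have h8 : (2:ℝ) ≤ Real.exp 1 := by
        have := Real.add_one_le_exp (1:ℝ)
        linarith
      calc 2 * (z:ℝ) ≤ Real.exp 1 * Real.exp (l ^ 40 / 2 + l / 8) := by gcongr
        _ = Real.exp (1 + (l ^ 40 / 2 + l / 8)) := by rw [Real.exp_add 1]
        _ ≤ _ := by
            apply Real.exp_le_exp.mpr
            have h9 : l ^ 40 * (l * l) = l ^ 42 := by ring
            have h10 : 1 ≤ l ^ 40 := one_le_pow₀ (by linarith)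
            have h11 : l ≤ l ^ 40 := by
              calc l = l ^ 1 := (pow_one l).symm
                _ ≤ l ^ 40 := pow_le_pow_right₀ (by linarith) (by norm_num)
            have h12 : (10000:ℝ) ≤ l * l := by nlinarith
            have h13 : l ^ 40 * 10000 ≤ l ^ 40 * (l * l) := by gcongr
            linarith
    have r1 : z / 2 ≤ z / (1 + hh) := by
      apply div_le_div_of_nonneg_left hz0.le (by linarith) (by linarith)
    have r2 : z / (1 + hh) ≤ z := div_le_self hz0.le (by linarith)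
    have r3 : (1 + hh) * z ≤ 2 * z := by nlinarith
    have r4 : z ≤ (1 + hh) * z := by nlinarith
    have h1 := sandwich q b z hz0' (Nat.totient q) hh ε hφ hh0 hh1 hε0.le
      (hl0 l hl1 hS q b hq hqe hb ((1 + hh) * z) (by linarith) (by linarith))
      (hl0 l hl1 hS q b hq hqe hb z (by linarith) (by linarith))
      (hl0 l hl1 hS q b hq hqe hb (z / (1 + hh)) (by linarith) (by linarith))
    refine h1.trans ?_
    have h2 : hh + 6 * ε / hh ≤ 19 * Real.exp (-(73 / 200 * l)) := by
      have h3 : hh ≤ Real.exp (-(73 / 200 * l)) := by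
        apply Real.exp_le_exp.mpr
        linarith
      have h4 : 6 * ε / hh = 18 * Real.exp (-(73 / 200 * l)) := by
        rw [hε, hhd, div_eq_iff (Real.exp_pos _).ne']
        rw [mul_assoc, ← Real.exp_add, ← mul_assoc]
        norm_num
        ring
      linarith
    have h5 : (19:ℝ) ≤ Real.exp (l / 25) := by
      have h6 : (19:ℝ) ≤ Real.exp 4 := by
        have h7 : (2.7:ℝ) ≤ Real.exp 1 := by
          have := Real.exp_one_gt_d9
          linarith
        have h8 : Real.exp 4 = (Real.exp 1) ^ 4 := by rw [← Real.exp_nat_mul]; norm_num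
        rw [h8]
        calc (19:ℝ) ≤ 2.7 ^ 4 := by norm_num
          _ ≤ _ := by gcongr
      refine h6.trans ?_
      apply Real.exp_le_exp.mpr
      linarith
    calc (z:ℝ) * (hh + 6 * ε / hh) ≤ Real.exp (l ^ 40 / 2 + l / 8) * (Real.exp (l / 25) * Real.exp (-(73 / 200 * l))) := by
          apply mul_le_mul hz _ (by positivity) (by positivity)
          refine h2.trans ?_
          gcongr
      _ = Real.exp (l ^ 40 / 2 - l / 5) := by
          rw [← Real.exp_add, ← Real.exp_add]
          congr 1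
          ring

end Pool.Agent.N232.SP
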