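import Mathlib
import Pool.Agent.N728.SP.Def
import Pool.Agent.H398R2.BA2

/-!
Project SP (helper728), task FF: the difference `aa - gg` in arithmetic progressions.
-/

set_option autoImplicit false

namespace Pool.Agent.N232.SP.FF

open Finset Pool.Agent.H410R2 Pool.Agent.H378R2 Pool.Agent.H398R2.BV Pool.Agent.N728.SP

/-- the function `psi(z; q, b)` -/
noncomputable def ps (q b z : ℕ) : ℝ :=
  ∑ n ∈ (Icc 1 z).filter (fun n => n ≡ b [MOD q]), ArithmeticFunction.vonMangoldt n

theorem sum_range_eq (q B n : ℕ) (hq : 1 ≤ q) :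
    ∑ k ∈ range n, ArithmeticFunction.vonMangoldt (B + 1 + q * k) = ps q (B + 1) (B + q * n) - ps q (B + 1) B := by
  have hsub : (Icc 1 B).filter (fun m => m ≡ B + 1 [MOD q]) ⊆
      (Icc 1 (B + q * n)).filter (fun m => m ≡ B + 1 [MOD q]) := by
    intro m hm
    rw [mem_filter, mem_Icc] at hm ⊢
    exact ⟨⟨hm.1.1, hm.1.2.trans (Nat.le_add_right _ _)⟩, hm.2⟩
  unfold ps
  rw [← sum_sdiff hsub, add_sub_cancel_right]
  symm
  apply sum_nbij' (i := fun m => (m - (B + 1)) / q) (j := fun k => B + 1 + q * k)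
  · intro m hm
    rw [mem_sdiff, mem_filter, mem_filter, mem_Icc, mem_Icc] at hm
    obtain ⟨⟨⟨hm1, hm2⟩, hm3⟩, hm4⟩ := hm
    have hB : B + 1 ≤ m := by
      by_contra hcon
      exact hm4 ⟨⟨hm1, by omega⟩, hm3⟩
    rw [mem_range, Nat.div_lt_iff_lt_mul (by omega)]
    rw [mul_comm n q]
    omega
  · intro k hk
    rw [mem_range] at hk
    rw [mem_sdiff, mem_filter, mem_filter, mem_Icc, mem_Icc]
    have h1 : q * (k + 1) ≤ q * n := Nat.mul_le_mul_left q hk
    refine ⟨⟨⟨by omega, ?_⟩, ?_⟩, ?_⟩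
    · rw [mul_add] at h1
      omega
    · unfold Nat.ModEq
      simp
    · rintro ⟨⟨_, h2⟩, _⟩
      omega
  · intro m hm
    rw [mem_sdiff, mem_filter, mem_filter, mem_Icc, mem_Icc] at hm
    obtain ⟨⟨⟨hm1, hm2⟩, hm3⟩, hm4⟩ := hm
    have hB : B + 1 ≤ m := by
      by_contra hcon
      exact hm4 ⟨⟨hm1, by omega⟩, hm3⟩
    have hd : q ∣ m - (B + 1) := (Nat.modEq_iff_dvd' hB).mp hm3.symm
    rw [Nat.mul_div_cancel' hd]
    omega
  · intro k _
    rw [Nat.add_sub_cancel_left, Nat.mul_div_cancel_left _ (by omega)]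
  · intro m hm
    rw [mem_sdiff, mem_filter, mem_filter, mem_Icc, mem_Icc] at hm
    obtain ⟨⟨⟨hm1, hm2⟩, hm3⟩, hm4⟩ := hm
    have hB : B + 1 ≤ m := by
      by_contra hcon
      exact hm4 ⟨⟨hm1, by omega⟩, hm3⟩
    have hd : q ∣ m - (B + 1) := (Nat.modEq_iff_dvd' hB).mp hm3.symm
    congr 1
    rw [Nat.mul_div_cancel' hd]
    omega

/-- the ratio of totients -/
theorem totient_ratio (M d : ℕ) (hM : 1 ≤ M) (hd : 1 ≤ d) :
    (Nat.totient M : ℝ) / M * (((M * d : ℕ) : ℝ) / (Nat.totient (M * d) : ℝ)) =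
      ∏ p ∈ d.primeFactors.filter (fun p => ¬ p ∣ M), ((p : ℝ) / (p - 1)) := by
  have hM0 : (M:ℝ) ≠ 0 := by positivity
  have h1 : (Nat.totient (M * d) : ℝ) = (M * d : ℕ) * ∏ p ∈ (M * d).primeFactors, (1 - (p:ℝ)⁻¹) := by
    have := Nat.totient_eq_mul_prod_factors (M * d)
    have h2 := congrArg (fun x : ℚ => (x : ℝ)) this
    push_cast at h2 ⊢
    exact h2
  have h2 : (Nat.totient M : ℝ) = M * ∏ p ∈ M.primeFactors, (1 - (p:ℝ)⁻¹) := by
    have := Nat.totient_eq_mul_prod_factors M
    have h2 := congrArg (fun x : ℚ => (x : ℝ)) this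
    push_cast at h2 ⊢
    exact h2
  have h3 : (M * d).primeFactors = M.primeFactors ∪ d.primeFactors.filter (fun p => ¬ p ∣ M) := by
    rw [Nat.primeFactors_mul (by omega) (by omega)]
    ext p
    simp only [mem_union, mem_filter, Nat.mem_primeFactors]
    constructor
    · rintro (h | h)
      · exact Or.inl h
      · by_cases hp : p ∣ M
        · exact Or.inl ⟨h.1, hp, by omega⟩
        · exact Or.inr ⟨h, hp⟩
    · rintro (h | h)
      · exact Or.inl h
      · exact Or.inr h.1
  have hdis : Disjoint M.primeFactors (d.primeFactors.filter (fun p => ¬ p ∣ M)) := by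
    rw [Finset.disjoint_left]
    intro p hp hq
    rw [mem_filter] at hq
    exact hq.2 (Nat.dvd_of_mem_primeFactors hp)
  have hpos : ∀ p : ℕ, p.Prime → (1 - (p:ℝ)⁻¹) ≠ 0 := by
    intro p hp
    have : (2:ℝ) ≤ p := by exact_mod_cast hp.two_le
    have h4 : (p:ℝ)⁻¹ ≤ 2⁻¹ := inv_anti₀ (by norm_num) this
    have : (0:ℝ) < 1 - (p:ℝ)⁻¹ := by linarith
    exact this.ne'
  have hP : ∏ p ∈ M.primeFactors, (1 - (p:ℝ)⁻¹) ≠ 0 := by
    rw [prod_ne_zero_iff]
    intro p hp
    exact hpos p (Nat.prime_of_mem_primeFactors hp)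
  have hR : ∏ p ∈ d.primeFactors.filter (fun p => ¬ p ∣ M), (1 - (p:ℝ)⁻¹) ≠ 0 := by
    rw [prod_ne_zero_iff]
    intro p hp
    rw [mem_filter] at hp
    exact hpos p (Nat.prime_of_mem_primeFactors hp.1)
  rw [h1, h2, h3, prod_union hdis]
  have h5 : ∏ p ∈ d.primeFactors.filter (fun p => ¬ p ∣ M), ((p : ℝ) / (p - 1)) =
      (∏ p ∈ d.primeFactors.filter (fun p => ¬ p ∣ M), (1 - (p:ℝ)⁻¹))⁻¹ := by
    rw [← prod_inv_distrib]
    apply prod_congr rfl
    intro p hp
    rw [mem_filter] at hp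
    have hp' := Nat.prime_of_mem_primeFactors hp.1
    have h6 : (2:ℝ) ≤ p := by exact_mod_cast hp'.two_le
    have h7 : (p:ℝ) - 1 ≠ 0 := by linarith
    have h8 : (p:ℝ) ≠ 0 := by linarith
    field_simp
  rw [h5]
  have hMd : ((M * d : ℕ) : ℝ) ≠ 0 := by
    have : M * d ≠ 0 := by positivity
    exact_mod_cast this
  generalize ∏ p ∈ d.primeFactors.filter (fun p => ¬ p ∣ M), (1 - (p:ℝ)⁻¹) = R at *
  generalize ∏ p ∈ M.primeFactors, (1 - (p:ℝ)⁻¹) = T at *
  generalize ((M * d : ℕ) : ℝ) = N at *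
  field_simp

theorem aa_sum (M d A n : ℕ) (hM : 1 ≤ M) (hd : 1 ≤ d) :
    ∑ k ∈ range n, aa M (A + d * k) = (Nat.totient M : ℝ) / M *
      (ps (M * d) (M * A + 1) (M * A + M * d * n) - ps (M * d) (M * A + 1) (M * A)) := by
  rw [← sum_range_eq (M * d) (M * A) n (Nat.mul_pos hM hd), mul_sum]
  apply sum_congr rfl
  intro k _
  unfold aa
  congr 2
  ring

theorem t_FF (h1 : S_AP) (h2 : S_GA) (h3 : S_SIZ) : S_FF := by
  obtain ⟨l1, hl1⟩ := h1
  obtain ⟨l3, hl3⟩ := h3
  refine ⟨max (max l1 l3) 1000, fun l hl hS d A n hd hdM hA => ?_⟩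
  have hll1 : l1 ≤ l := (le_max_left _ _).trans ((le_max_left _ _).trans hl)
  have hll3 : l3 ≤ l := (le_max_right _ _).trans ((le_max_left _ _).trans hl)
  have hll : (1000 : ℝ) ≤ l := (le_max_right _ _).trans hl
  obtain ⟨-, s1, s2, s3, s4, s5, s6, s7, s8⟩ := hl3 l hll3
  have hM : 1 ≤ MM l := primorial_pos _
  set M := MM l with hMdef
  set Q := QQ l with hQdef
  have hM0 : (1:ℝ) ≤ M := by exact_mod_cast hM
  have hq1 : 1 ≤ M * d := Nat.mul_pos hM hd
  have hdQ : d ≤ Q := hdM.trans s2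
  have hQle : (Q:ℝ) ≤ Real.exp (l / 100) := Nat.floor_le (Real.exp_pos _).le
  have hqe : ((M * d : ℕ) : ℝ) ≤ Real.exp (l / 100) := by
    have h4 : ((M * d : ℕ) : ℝ) ≤ (M:ℝ) ^ 3 := by
      have : M * d ≤ M ^ 3 := by
        calc M * d ≤ M * M ^ 2 := Nat.mul_le_mul_left M hdM
          _ = M ^ 3 := by ring
      exact_mod_cast this
    calc ((M * d : ℕ) : ℝ) ≤ (M:ℝ) ^ 3 := h4
      _ ≤ (Real.exp (l / 1400)) ^ 3 := by gcongr
      _ = Real.exp (3 * (l / 1400)) := by rw [← Real.exp_nat_mul]; norm_num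
      _ ≤ _ := by
          apply Real.exp_le_exp.mpr
          linarith
  -- sizes
  have z1 : ((M * A + M * d * n : ℕ) : ℝ) ≤ Real.exp (l ^ 40 / 2 + l / 8) := by
    have h4 : M * A + M * d * n ≤ M * (4 * M * YY l) := by
      calc M * A + M * d * n = M * (A + d * n) := by ring
        _ ≤ _ := Nat.mul_le_mul_left M hA
    have h5 : ((M * A + M * d * n : ℕ) : ℝ) ≤ (M:ℝ) * (4 * M * YY l) := by exact_mod_cast h4
    linarith
  have z2 : ((M * A : ℕ) : ℝ) ≤ Real.exp (l ^ 40 / 2 + l / 8) := by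
    refine le_trans ?_ z1
    have : M * A ≤ M * A + M * d * n := Nat.le_add_right _ _
    exact_mod_cast this
  have hGA := h2 M Q d A n hM hd hdQ
  set P := ∏ p ∈ d.primeFactors.filter (fun p => ¬ p ∣ M), (if p ∣ M * A + 1 then 0 else (p : ℝ) / (p - 1)) with hP
  have hsum : ∑ k ∈ range n, ff M Q (A + d * k) =
      (∑ k ∈ range n, aa M (A + d * k) - n * P) - (∑ k ∈ range n, gg M Q (A + d * k) - n * P) := by
    unfold ff
    rw [sum_sub_distrib]
    ring
  have hratio : (Nat.totient M : ℝ) / M ≤ 1 := by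
    rw [div_le_one (by linarith)]
    exact_mod_cast Nat.totient_le M
  have hratio0 : 0 ≤ (Nat.totient M : ℝ) / M := by positivity
  -- bound for the primes part
  have hmain : |∑ k ∈ range n, aa M (A + d * k) - n * P| ≤ 2 * Real.exp (l ^ 40 / 2 - l / 5) := by
    rw [aa_sum M d A n hM hd]
    by_cases hc : (M * A + 1).Coprime (M * d)
    · have e1 := hl1 l hll1 hS (M * d) (M * A + 1) hq1 hqe hc (M * A + M * d * n) z1
      have e2 := hl1 l hll1 hS (M * d) (M * A + 1) hq1 hqe hc (M * A) z2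
      change |ps (M * d) (M * A + 1) (M * A + M * d * n) - _| ≤ _ at e1
      change |ps (M * d) (M * A + 1) (M * A) - _| ≤ _ at e2
      have hPe : P = ∏ p ∈ d.primeFactors.filter (fun p => ¬ p ∣ M), ((p : ℝ) / (p - 1)) := by
        rw [hP]
        apply prod_congr rfl
        intro p hp
        rw [mem_filter] at hp
        rw [if_neg]
        intro hpd
        have hp' := Nat.prime_of_mem_primeFactors hp.1
        have h6 : p ∣ (M * A + 1).gcd (M * d) :=
          Nat.dvd_gcd hpd ((Nat.dvd_of_mem_primeFactors hp.1).mul_left M)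
        rw [hc] at h6
        exact hp'.one_lt.ne' (Nat.dvd_one.mp h6)
      rw [hPe, ← totient_ratio M d hM hd]
      have h7 : (Nat.totient M : ℝ) / M * (ps (M * d) (M * A + 1) (M * A + M * d * n) - ps (M * d) (M * A + 1) (M * A)) -
          n * ((Nat.totient M : ℝ) / M * (((M * d : ℕ) : ℝ) / (Nat.totient (M * d) : ℝ))) =
          (Nat.totient M : ℝ) / M * ((ps (M * d) (M * A + 1) (M * A + M * d * n) -
            ((M * A + M * d * n : ℕ) : ℝ) / (Nat.totient (M * d) : ℝ)) -
            (ps (M * d) (M * A + 1) (M * A) - ((M * A : ℕ) : ℝ) / (Nat.totient (M * d) : ℝ))) := by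
        push_cast
        ring
      rw [h7, abs_mul, abs_of_nonneg hratio0]
      calc _ ≤ 1 * (Real.exp (l ^ 40 / 2 - l / 5) + Real.exp (l ^ 40 / 2 - l / 5)) := by
            apply mul_le_mul hratio _ (abs_nonneg _) (by norm_num)
            refine (abs_sub _ _).trans ?_
            exact add_le_add e1 e2
        _ = _ := by ring
    · -- not coprime
      have hP0 : P = 0 := by
        obtain ⟨p, hp, hp1, hp2⟩ := Nat.Prime.not_coprime_iff_dvd.mp hc
        have hpM : ¬ p ∣ M := by
          intro hpM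
          have h8 : p ∣ M * A := hpM.mul_right A
          have h9 : p ∣ 1 := (Nat.dvd_add_right h8).mp hp1
          exact hp.one_lt.ne' (Nat.dvd_one.mp h9)
        have hpd : p ∣ d := (hp.dvd_mul.mp hp2).resolve_left hpM
        rw [hP]
        apply prod_eq_zero (i := p)
        · rw [mem_filter, Nat.mem_primeFactors]
          exact ⟨⟨hp, hpd, by omega⟩, hpM⟩
        · rw [if_pos hp1]
      rw [hP0, mul_zero, sub_zero, abs_mul, abs_of_nonneg hratio0]
      have hmono : ps (M * d) (M * A + 1) (M * A) ≤ ps (M * d) (M * A + 1) (M * A + M * d * n) := by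
        unfold ps
        apply sum_le_sum_of_subset_of_nonneg
        · intro m hm
          rw [mem_filter, mem_Icc] at hm ⊢
          exact ⟨⟨hm.1.1, hm.1.2.trans (Nat.le_add_right _ _)⟩, hm.2⟩
        · intro i _ _; exact ArithmeticFunction.vonMangoldt_nonneg
      have hps0 : 0 ≤ ps (M * d) (M * A + 1) (M * A) := sum_nonneg fun _ _ => ArithmeticFunction.vonMangoldt_nonneg
      have hnc : ps (M * d) (M * A + 1) (M * A + M * d * n) ≤
          (M * d).primeFactors.card * Real.log ((M * A + M * d * n : ℕ) : ℝ) := by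
        refine le_trans ?_ (sum_not_coprime (M * A + M * d * n) (M * d) hq1)
        unfold ps
        apply sum_le_sum_of_subset_of_nonneg
        · intro m hm
          rw [mem_filter] at hm ⊢
          refine ⟨hm.1, fun hcop => hc ?_⟩
          have h10 : m.gcd (M * d) = (M * A + 1).gcd (M * d) := hm.2.gcd_eq
          unfold Nat.Coprime at hcop ⊢
          rw [← h10]; exact hcop
        · intro i _ _; exact ArithmeticFunction.vonMangoldt_nonneg
      have hlq : Real.log ((M * d : ℕ) : ℝ) ≤ l / 100 := by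
        rw [Real.log_le_iff_le_exp (by exact_mod_cast hq1)]; exact hqe
      have hlz : Real.log ((M * A + M * d * n : ℕ) : ℝ) ≤ l ^ 40 / 2 + l / 8 := by
        rcases Nat.eq_zero_or_pos (M * A + M * d * n) with h0 | h0
        · rw [h0]; simp; positivity
        · rw [Real.log_le_iff_le_exp (by exact_mod_cast h0)]; exact z1
      have hlz0 : 0 ≤ Real.log ((M * A + M * d * n : ℕ) : ℝ) := Real.log_natCast_nonneg _
      have homega := omega_le_log (M * d) hq1
      have hps : ps (M * d) (M * A + 1) (M * A + M * d * n) ≤ l ^ 41 := by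
        calc _ ≤ (M * d).primeFactors.card * Real.log ((M * A + M * d * n : ℕ) : ℝ) := hnc
          _ ≤ (2 * (l / 100)) * (l ^ 40 / 2 + l / 8) := by
              apply mul_le_mul _ hlz hlz0 (by positivity)
              linarith
          _ ≤ _ := by
              have h11 : l ≤ l ^ 40 := by
                calc l = l ^ 1 := (pow_one l).symm
                  _ ≤ l ^ 40 := pow_le_pow_right₀ (by linarith) (by norm_num)
              have h12 : l ^ 41 = l * l ^ 40 := by ring
              rw [h12]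
              have h13 : l * (l ^ 40 / 2 + l / 8) ≤ l * l ^ 40 := by
                apply mul_le_mul_of_nonneg_left _ (by linarith)
                linarith
              have h14 : 0 ≤ l * (l ^ 40 / 2 + l / 8) := by positivity
              linarith
      have hfin : l ^ 41 ≤ 2 * Real.exp (l ^ 40 / 2 - l / 5) := by
        have h10 : l ^ 41 ≤ Real.exp (41 * l) := by
          have : l ≤ Real.exp l := by linarith [Real.add_one_le_exp l]
          calc l ^ 41 ≤ (Real.exp l) ^ 41 := by gcongr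
            _ = Real.exp (41 * l) := by rw [← Real.exp_nat_mul]; norm_num
        have h11 : Real.exp (41 * l) ≤ Real.exp (l ^ 40 / 2 - l / 5) := by
          apply Real.exp_le_exp.mpr
          have h12 : 1000 * l ≤ l ^ 40 := by
            calc 1000 * l ≤ l * l := by gcongr
              _ = l ^ 2 := by ring
              _ ≤ l ^ 40 := pow_le_pow_right₀ (by linarith) (by norm_num)
          linarith
        have : 0 < Real.exp (l ^ 40 / 2 - l / 5) := Real.exp_pos _
        linarith
      calc (Nat.totient M : ℝ) / M * |ps (M * d) (M * A + 1) (M * A + M * d * n) - ps (M * d) (M * A + 1) (M * A)|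
          ≤ 1 * (l ^ 41) := by
            apply mul_le_mul hratio _ (abs_nonneg _) (by norm_num)
            rw [abs_of_nonneg (by linarith)]
            linarith
        _ ≤ _ := by rw [one_mul]; exact hfin
  rw [hsum]
  refine (abs_sub _ _).trans ?_
  have hQ2 : (Q:ℝ) ^ 2 ≤ Real.exp (l / 50) := by
    calc (Q:ℝ) ^ 2 ≤ (Real.exp (l / 100)) ^ 2 := by gcongr
      _ = Real.exp (l / 50) := by rw [← Real.exp_nat_mul]; congr 1; push_cast; ring
  have hlast : 2 * Real.exp (l ^ 40 / 2 - l / 5) + Real.exp (l / 50) ≤ Real.exp (l ^ 40 / 2 - l / 6) := by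
    have h12 : 1000 * l ≤ l ^ 40 := by
      calc 1000 * l ≤ l * l := by gcongr
        _ = l ^ 2 := by ring
        _ ≤ l ^ 40 := pow_le_pow_right₀ (by linarith) (by norm_num)
    have h13 : Real.exp (l / 50) ≤ Real.exp (l ^ 40 / 2 - l / 5) := by
      apply Real.exp_le_exp.mpr
      linarith
    have h14 : (3:ℝ) ≤ Real.exp (l / 30) := by
      have := Real.add_one_le_exp (l / 30)
      linarith
    calc 2 * Real.exp (l ^ 40 / 2 - l / 5) + Real.exp (l / 50) ≤ 3 * Real.exp (l ^ 40 / 2 - l / 5) := by linarith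
      _ ≤ Real.exp (l / 30) * Real.exp (l ^ 40 / 2 - l / 5) := by gcongr
      _ = _ := by rw [← Real.exp_add]; congr 1; ring
  linarith

end Pool.Agent.N232.SP.FF
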